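import Pool.Agent.Q35.TB.All

/-!
# Rational points on Enriques surfaces in Horikawa's model: finite or Zariski dense

Let `K` be a number field and `F` a form over `K` of bidegree `(4, 4)` on `ℙ¹ × ℙ¹`, with the
coordinates `(x₀ : x₁)`, `(y₀ : y₁)`, which is invariant under `(x₁, y₁) ↦ (-x₁, -y₁)`, and such that the
curve `F = 0` is smooth. The involution `ι : (w; x₀, x₁; y₀, y₁) ↦ (-w; x₀, -x₁; y₀, -y₁)` acts on the K3
surface `X : w² = F(x, y)`. If `F` does not vanish at the four points `x₀ x₁ = y₀ y₁ = 0`, then `ι` has no
fixed points and `Y = X / ι` is an Enriques surface; this is Horikawa's model of the general Enriques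
surface.

The points of `Y` over an extension `L` of `K` are the pairs `{P, ιP}` of points of `X` over the algebraic
closure which are stable under the Galois group of `L`.

**Theorem.** For each `D` there is a finite set `T` of points of `ℙ¹ × ℙ¹` over the algebraic closure such
that for ALL extensions `L` of `K` of degree at most `D`: `Y(L)` is Zariski dense, or all the points of
`Y(L)` lie on the image of the branch curve `w = 0`, or on finitely many special curves (the images of
the fibres of the two projections of `ℙ¹ × ℙ¹` on which the derivatives of `F` in the other direction are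
constant multiples of `F`), or over `T`.

So if `Y(L)` contains one point outside these curves which is not one of finitely many points, then
`Y(L)` is Zariski dense; and off these curves `Y(L)` is either finite, with at most `2 |T|` points for all
`L` of degree at most `D`, or Zariski dense. In general there are no special curves. The image of the
branch curve `w = 0`, a curve of genus `9`, is a curve of genus `5`, so it contains only finitely many
points over `L` (Faltings).

Idea of the proof. A point of `Y(L)` with `w ≠ 0` lifts to a point `P` of `X` over the quadratic extension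
`L(w)`, and to an `L`-point of the twist `d w² = F(x₀, √d x₁; y₀, √d y₁)`, `d = w²`. By the theorem on the
points of bounded degree which are torsion for both projections
(`MP_a2aa7d_nt.TwistsOverExtensions`) the difference of `P` and its conjugate `(-w, x, y)` has infinite
order in the Jacobian of one of the two curves of genus one through `P`, if `P` does not lie over `T`.
So the `L`-points of the twist move along one of these two curves; for all but finitely many of the
new points on it the same holds for the other direction, unless the first curve lies over a special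
line. Hence the `L`-points of the twist are Zariski dense.

Projects TT and TB of helper35, with helpers 13, 26, 38, 53, 65, 68, 79, 121, 129, 137, 149, 150, 151,
153, 164, 182, 190, 192, 193, 208, 210, 222, 224, 237, 238, 275, 285.
-/

set_option autoImplicit false

namespace Pool.Agent.Results.MP_521e5f_ag.HorikawaModels

open MvPolynomial

section

variable {K : Type} [Field K]

/-- `F` is a form of bidegree `(4, 4)`: of degree `4` in each pair of variables `(j, 0)`, `(j, 1)`, the
coordinates of the `j`-th factor of `ℙ¹ × ℙ¹`. -/
def IsForm (F : MvPolynomial (Fin 2 × Fin 2) K) : Prop :=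
  ∀ m ∈ F.support, ∀ j, m (j, 0) + m (j, 1) = 4

/-- `F` is invariant under the change of signs of the variables `(0, 1)` and `(1, 1)`. -/
def IsEven (F : MvPolynomial (Fin 2 × Fin 2) K) : Prop :=
  ∀ m ∈ F.support, Even (m (0, 1) + m (1, 1))

/-- The curve `F = 0` in `ℙ¹ × ℙ¹` is smooth. -/
def Smooth (F : MvPolynomial (Fin 2 × Fin 2) K) : Prop :=
  ∀ x : Fin 2 × Fin 2 → AlgebraicClosure K, (∀ j, ∃ b, x (j, b) ≠ 0) → ∃ p, aeval x (pderiv p F) ≠ 0

/-- The fibre through `X` of a projection of `ℙ¹ × ℙ¹`, on which the coordinates `(j, a)`, `j ∉ J`, are
constant, is special: for the points `Y` of this fibre the derivatives of `F` in the other direction are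
constant multiples of `F`. -/
def Special (F : MvPolynomial (Fin 2 × Fin 2) K) (X : Fin 2 × Fin 2 → K) (J : Finset (Fin 2)) :
    Prop :=
  ∀ k, k ∉ J → ∀ b, ∃ c : K, ∀ Y : Fin 2 × Fin 2 → K, (∀ j, j ∉ J → ∀ a, Y (j, a) = X (j, a)) →
    eval Y (pderiv (k, b) F) = c * eval Y F

/-- The fibre through the point with the coordinates `X` on which the coordinates `(j, a)`, `j ∉ J`, are
constant up to scaling. -/
def fibre (X : Fin 2 × Fin 2 → K) (J : Finset (Fin 2)) : Set (Fin 2 × Fin 2 → K) :=
  {Y | ∀ j, j ∉ J → ∃ a : K, a ≠ 0 ∧ ∀ b, Y (j, b) = a * X (j, b)}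

/-- The change of signs of the coordinates `(0, 1)` and `(1, 1)`. -/
def flip {R : Type} [Neg R] (X : Fin 2 × Fin 2 → R) (p : Fin 2 × Fin 2) : R :=
  if p.2 = 1 then - X p else X p

/-- `(w, X)` and `(w', X')` are coordinate vectors of the same point of `w² = F`. -/
def SamePoint {R : Type} [CommRing R] (w : R) (X : Fin 2 × Fin 2 → R) (w' : R)
    (X' : Fin 2 × Fin 2 → R) : Prop :=
  ∃ a : Fin 2 → R, (∀ j, a j ≠ 0) ∧ w' = (∏ j, a j) ^ 2 * w ∧ X' = fun p => a p.1 * X p

/-- `P = (w, X)` is a point of `w² = F` over the algebraic closure of `K` whose image in the quotient by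
the involution `ι` is rational over `L`: all conjugates of `P` over `L` are `P` or `ιP`. -/
def IsRationalPoint (L : IntermediateField K (AlgebraicClosure K))
    (F : MvPolynomial (Fin 2 × Fin 2) K) (w : AlgebraicClosure K)
    (X : Fin 2 × Fin 2 → AlgebraicClosure K) : Prop :=
  (∀ j, ∃ b, X (j, b) ≠ 0) ∧ w ^ 2 = aeval X F ∧
    ∀ σ : AlgebraicClosure K ≃ₐ[L] AlgebraicClosure K,
      SamePoint w X (σ w) (fun p => σ (X p)) ∨ SamePoint (-w) (flip X) (σ w) (fun p => σ (X p))

end

/-- **Enriques surfaces: the rational points are Zariski dense, or contained in finitely many special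
curves and one finite set.** -/
theorem result (K : Type) [Field K] [NumberField K]
    (F : MvPolynomial (Fin 2 × Fin 2) K) (hF : IsForm F) (he : IsEven F) (hs : Smooth F) (D : ℕ) :
    -- there are only finitely many special fibres (through points with `F ≠ 0`)
    (∀ J : Finset (Fin 2), J.Nonempty → J ≠ Finset.univ →
      {P | ∃ X, eval X (map (algebraMap K (AlgebraicClosure K)) F) ≠ 0 ∧
        Special (map (algebraMap K (AlgebraicClosure K)) F) X J ∧ P = fibre X J}.Finite) ∧
    -- one finite set for all extensions of degree at most `D`
    ∃ T : Set (Fin 2 × Fin 2 → AlgebraicClosure K), T.Finite ∧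
      ∀ L : IntermediateField K (AlgebraicClosure K), FiniteDimensional K L →
      Module.finrank K L ≤ D →
        -- the rational points are Zariski dense
        (∀ g : MvPolynomial (Option (Fin 2 × Fin 2)) K,
          (∀ (w : AlgebraicClosure K) (X : Fin 2 × Fin 2 → AlgebraicClosure K),
            IsRationalPoint L F w X → aeval (fun o => o.elim w X) g = 0) →
          (MvPolynomial.X none ^ 2 - rename some F) ∣ g) ∨
        -- or each of them lies on the branch curve, on a special fibre or over `T`
        ∀ (w : AlgebraicClosure K) (X : Fin 2 × Fin 2 → AlgebraicClosure K),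
          IsRationalPoint L F w X → w = 0 ∨
          (∃ J : Finset (Fin 2), J.Nonempty ∧ J ≠ Finset.univ ∧
            Special (map (algebraMap K (AlgebraicClosure K)) F) X J) ∨
          ∃ t ∈ T, ∃ a : Fin 2 → AlgebraicClosure K, X = fun p => a p.1 * t p := by
  have h1 := Pool.Agent.Q35.TB.enr2
  have h2 := Pool.Agent.Q35.TT.fsf2
  have h3 := Pool.Agent.Q35.TB.exf2
  refine ⟨?_, h1 K F hF hs he D⟩
  obtain ⟨g1, g2, -⟩ := h3 K (AlgebraicClosure K) 2 F hF
  exact h2 (AlgebraicClosure K) _ g1 (g2.1 hs)

end Pool.Agent.Results.MP_521e5f_ag.HorikawaModels
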